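import Pool.Agent.Run7.h528.MB.Full

/-!
The nef cone conjecture for pairs with an abelian group of automorphisms of rank `ρ - k` and `k`
invariant blocks of divisor classes.
-/

set_option autoImplicit false

open FF Pool.Agent.W602.GT Pool.Agent.Y172 Pool.Agent.R887 Pool.Agent.N110 Pool.Agent.N110.CC
open Run7.h528.MB

/-- Let `X` be a normal projective variety of dimension `n ≥ 1`, with generic point `y`. Let the
vectors `c P` be the classes of the prime divisors in `N¹(X) = ℤ ^ ρ` (if `X` is `ℚ`-factorial then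
`ρ` is the Picard number of `X`). Let `Δ` be a divisor on `X` and let `ℤ ^ r`, `r ≥ 1`, act on `X`
by automorphisms `f_v` which preserve `Δ`, given by the automorphisms `φ v = f_v^*` of the function
field. Suppose that `f_v` has positive entropy (the first dynamical degree is greater than `1`) for
all `v ≠ 0`, that `N¹(X)` contains with finite index a direct sum `Λ_1 ⊕ … ⊕ Λ_k` of groups of rank
at least `2` such that `f_v^*` maps each `Λ_i` into itself, and that `r = ρ - k`. (The classes `u j`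
are a basis of the sum, and `u j` is in `Λ_i` for `i = β j`.) For `k = 1` the condition is
`r = ρ - 1`.

Then the nef cone `Nef(X)` is the closure of the effective cone `Eff(X)` and a simplicial cone,
generated by a basis `b` of `N¹(X) ⊗ ℝ` with `b j` in `Λ_i ⊗ ℝ` for `i = β j`. Let every `Λ_i ⊗ ℝ`
contain a nonzero effective class. Then a class is in the cone `Nef(X) ∩ Eff(X)` if and only if its
component in `Λ_i ⊗ ℝ` is zero or a combination of the `b j` in `Λ_i ⊗ ℝ` with positive coefficients,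
for all `i`, and the nef cone conjecture holds for `(X, Δ)`: the action of the group `Aut(X, Δ)` of
the automorphisms of `X` which preserve `Δ` on `Nef(X) ∩ Eff(X)` has a rational polyhedral
fundamental domain. Without the condition on effective classes, `Aut(X, Δ)` has a rational
polyhedral fundamental domain on the cone `Nef(X)⁺` generated by the rational nef classes, which
contains `Nef(X) ∩ Eff(X)`, and the condition holds if the cones are equal. -/
theorem Pool.Agent.Results.MP_20d318_ag.BlockRankNef.result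
    {K : Type} [Field K] [Algebra ℂ K] {N n r k ρ : ℕ} {y : Fin (N + 1) → K} (hy : NormalModel y)
    (hn : Algebra.trdeg ℂ K = n) (hn0 : 0 < n) (hr : 0 < r)
    {c : Place ℂ K → Fin ρ → ℤ} (hc : PicardBasis y c)
    {φ : (Fin r → ℤ) → (K ≃ₐ[ℂ] K)} (hφ : ∀ u v, φ (u + v) = φ u * φ v)
    (haut : ∀ v, IsAut (φ v) y) (hent : ∀ v, v ≠ 0 → 1 < dynDegree (φ v) y n 1)
    {Δ : Place ℂ K → ℝ} (hΔ : ∀ v, Preserves (φ v) y Δ)
    {u : Fin ρ → Fin ρ → ℤ} (hu : LinearIndependent ℝ (fun j i => (u j i : ℝ)))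
    {β : Fin ρ → Fin k} (hβ : ∀ i, ∃ j j', j ≠ j' ∧ β j = i ∧ β j' = i) (hρ : ρ = r + k)
    (hbl : ∀ v, PreservesBlocks y c u β (φ v)) :
    nefCone y n c = closure (effCone y c) ∧
    (∃ b : Fin ρ → Fin ρ → ℝ, LinearIndependent ℝ b ∧
      (∀ j, ∃ a : Fin ρ → ℝ, (∀ l, β l ≠ β j → a l = 0) ∧ b j = comb u a) ∧
      (∀ x, x ∈ nefCone y n c ↔ ∃ a : Fin ρ → ℝ, (∀ j, 0 ≤ a j) ∧ x = ∑ j, a j • b j) ∧
      ∀ x, x ∈ ratHull (nefCone y n c) ↔ ∃ a : Fin ρ → ℝ, (∀ j, 0 ≤ a j) ∧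
        (∀ j j', β j = β j' → a j = 0 → a j' = 0) ∧ x = ∑ j, a j • b j) ∧
    nefCone y n c ∩ effCone y c ⊆ ratHull (nefCone y n c) ∧
    ((∀ i, ∃ a : Fin ρ → ℝ, a ≠ 0 ∧ (∀ l, β l ≠ i → a l = 0) ∧ comb u a ∈ effCone y c) ↔
      nefCone y n c ∩ effCone y c = ratHull (nefCone y n c)) ∧
    HasFundDomain {T | ∃ ψ, IsAut ψ y ∧ Preserves ψ y Δ ∧ IsPullBack y c ψ T}
      (ratHull (nefCone y n c)) ∧
    ((∀ i, ∃ a : Fin ρ → ℝ, a ≠ 0 ∧ (∀ l, β l ≠ i → a l = 0) ∧ comb u a ∈ effCone y c) →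
      HasFundDomain {T | ∃ ψ, IsAut ψ y ∧ Preserves ψ y Δ ∧ IsPullBack y c ψ T}
        (nefCone y n c ∩ effCone y c)) := by
  have h := full_nef hy hn hn0 hr hc
    (𝒮 := presGroup y (autGroup y) (fun _ h => isAut_psM hy h) Δ) (fun ψ hψ => hψ.1) hφ
    (fun v => ⟨haut v, hΔ v⟩) hent hu hβ hρ hbl
  have h1 : {T | ∃ ψ ∈ presGroup y (autGroup y) (fun _ h => isAut_psM hy h) Δ,
      IsPullBack y c ψ T} =
      {T | ∃ ψ, IsAut ψ y ∧ Preserves ψ y Δ ∧ IsPullBack y c ψ T} := by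
    ext T
    exact ⟨fun ⟨ψ, h1, h2⟩ => ⟨ψ, h1.1, h1.2, h2⟩, fun ⟨ψ, h1, h2, h3⟩ => ⟨ψ, ⟨h1, h2⟩, h3⟩⟩
  have h2 := h.fd
  have h3 := h.fde
  rw [h1] at h2 h3
  exact ⟨h.eq, h.desc, h.sub, h.iff, h2, h3⟩
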