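import Pool.Agent.Run7.h334.CQ.Rel

set_option autoImplicit false

/-!
# The relative nef cone conjecture passes to finite quotients and products

Let `(X/Z, Δ)` be a `ℚ`-factorial klt log Calabi-Yau pair over `Z`, and let `H` be a finite group
which acts on `X` and `Z`, compatibly with `X → Z`, and preserves `Δ`. It may have fixed points and
reflections. Let `Y = X / H`, `Z' = Z / H` and let `Δ'` be the divisor on `Y` such that `K_X + Δ` is
the pull back of `K_Y + Δ'`. Then `(Y/Z', Δ')` is again a `ℚ`-factorial klt log Calabi-Yau pair. The
theorem says that the conjecture of Q1 passes from `(X/Z, Δ)` to `(Y/Z', Δ')`, and to products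
`(X_1/Z_1, Δ_1) × (X_2/Z_2, Δ_2)` for which `N¹(X_1 × X_2/Z_1 × Z_2)` is the direct sum of the spaces of
the factors (for instance if the general fibre of one of them has irregularity `0`). So it holds for
all pairs which can be constructed from pairs of dimension two (Totaro), from abelian varieties and
from hyperkähler manifolds by products and finite quotients, for instance for all quotients of
products `S_1 × ... × S_n` of klt Calabi-Yau pairs of dimension two with `q(S_i) = 0` for `i ≥ 2`.

The proof: only finitely many elements of the image of the group in `GL(N¹(X/Z))` fix an interior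
class of a given finitely generated cone (Dickson's lemma; from the starting repository). If `x` is a
class on `Y` and `g x` is in the fundamental domain of `X`, for `g` in `Aut(X/Z, Δ)`, then all
`g h g⁻¹`, `h ∈ H`, fix the class `g x`. So for these `g` there are only finitely many homomorphisms
`h ↦ g h g⁻¹` modulo the kernel `K` of the action of `Aut(X/Z, Δ)` on `N¹(X/Z)`. The kernel is infinite
in general: it contains a subgroup `A` of finite index of the group of the `ℂ(Z)`-rational points of
the abelian variety `Aut⁰` of the generic fibre. By Lang and Néron `A` is an extension of a finitely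
generated group by a divisible-by-finite group, so `A / A ^ n` and `A[n]` are finite. This implies
that `H¹(H, A)` is finite, and that there are only finitely many homomorphisms modulo conjugation by
elements of `K`. Hence the elements of `Aut(X/Z, Δ)` which commute with `H`, which act on `Y`, move
every ample class of `Y/Z'` into one of finitely many rational polyhedral cones, and a Dirichlet
domain is a fundamental domain.

`IsCone`, `IsLattice`, `HasDegree`, `IsConePair`, `HasFundDomain`, `IsLin`, `IsLinIso`,
`IsLinAction` and `SmallKernel` are defined in `Pool.Agent.Run7.h334.CQ.Defs`; `RelPair`, `ConeConj`,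
`Preserves`, `IsGood`, `IsPullBack`, `IsQuotient`, `IsProduct` and `Gen` in
`Pool.Agent.Run7.h334.CQ.RelDefs`; `Small` in `Pool.Agent.Run7.h334.CQ.Lift`; `cone` in
`Pool.Agent.Y167.ConeDef`.
-/

open Run7.h334.CQ Run7.h334.CQ.RelPair

/-- Let `V` be the class of all `ℚ`-factorial klt log Calabi-Yau pairs `(X/Z, Δ)`. For such a pair let
`D X` consist of `N = N¹(X/Z)`, the group `L` of the classes of line bundles, the cones
`C = Nef(X/Z)` and `E = Eff(X/Z)`, the group `Γ` of all automorphisms of `X` which preserve `Δ` and
induce an automorphism of `Z`, its action `g ↦ g_*` on `N`, and the subgroup `G = Aut(X/Z, Δ)`.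

(1) If `(X/Z, Δ)` satisfies the cone conjecture then so does its quotient `(Y/Z', Δ')` by every finite
subgroup `H` of `Γ`: the cone `Nef(Y/Z') ∩ Eff(Y/Z')` has a rational polyhedral fundamental domain for
the action of `Aut(Y/Z', Δ')`.

(2) The cone conjecture passes to products.

(3) If all pairs in `F` satisfy the cone conjecture then so do all pairs in the smallest class which
contains `F` and is closed under products and finite quotients. -/
theorem Pool.Agent.Results.MP_20d318_ag.FiniteQuotients.result {V : Type} {D : V → RelPair}
    (hD : ∀ X, (D X).IsGood) :
    (∀ (X Y : V) (H : Subgroup (D X).Γ), Finite H → (D X).IsQuotient H (D Y) →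
      (D X).ConeConj → (D Y).ConeConj) ∧
    (∀ (X : V) (I : Type) (S : I → V), Finite I → (D X).IsProduct (fun i => D (S i)) →
      (∀ i, (D (S i)).ConeConj) → (D X).ConeConj) ∧
    ∀ F : Set V, (∀ S ∈ F, (D S).ConeConj) → ∀ X, Gen D F X → (D X).ConeConj := by
  refine ⟨fun X Y H hH hq h => quotient (hD X) (hD Y) hH hq h, fun X I S hI hp h => ?_,
    fun F hF X hX => gen hD hF hX⟩
  have := Fintype.ofFinite I
  exact product (hD X) (fun i => hD (S i)) hp h
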